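import Mathlib

set_option autoImplicit false
open Filter Topology Metric Set Complex

namespace Pool.Agent.H.MP_32357e_an

def St : Set ℂ := {s | |s.im| < Real.pi / 2}

theorem inj {L L' : ℂ → ℂ} {κ : ℝ} (h0 : κ < 1) (h1 : ∀ s ∈ St, HasDerivAt L (L' s) s)
    (h2 : ∀ s ∈ St, ‖L' s - 1‖ ≤ κ) : InjOn (fun s => exp (L s)) St := fun s hs t ht e => by
  have c : Convex ℝ St := by
    have : St = {s : ℂ | -(Real.pi / 2) < s.im} ∩ {s : ℂ | s.im < Real.pi / 2} := by
      ext s; simp [St, abs_lt]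
    exact this ▸ (convex_halfSpace_im_gt _).inter (convex_halfSpace_im_lt _)
  have h3 := c.norm_image_sub_le_of_norm_hasDerivWithin_le (f := fun s => L s - s)
    (fun x hx => ((h1 x hx).sub (hasDerivAt_id x)).hasDerivWithinAt) h2 ht hs
  obtain ⟨k, hk⟩ := exp_eq_exp_iff_exists_int.mp e
  rw [hk, show L t + k * (2 * Real.pi * I) - s - (L t - t) = (k * (2 * Real.pi) : ℝ) * I - (s - t) by
    push_cast; ring] at h3
  have h4 : |(s - t).im| < Real.pi := by
    have := abs_sub s.im t.im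
    rw [sub_im]
    linarith [show |s.im| < _ from hs, show |t.im| < _ from ht]
  rw [← sub_eq_zero]
  generalize s - t = d at h3 h4
  have h5 : ‖d‖ ≤ ‖(k * (2 * Real.pi) : ℝ) * I - d‖ := by
    refine abs_le_of_sq_le_sq' ?_ (norm_nonneg _) |>.2
    rw [Complex.sq_norm, Complex.sq_norm, normSq_apply, normSq_apply]
    simp only [sub_re, sub_im, mul_re, mul_im, ofReal_re, ofReal_im, I_re, I_im]
    have p := Real.pi_pos
    have q := abs_lt.mp h4
    rcases lt_trichotomy k 0 with h | h | h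
    · have : (k : ℝ) ≤ -1 := by exact_mod_cast (by omega : k ≤ -1)
      nlinarith [mul_nonneg (neg_nonneg.mpr (by nlinarith : k * Real.pi ≤ 0))
        (by nlinarith : 0 ≤ d.im - k * Real.pi)]
    · simp [h]
    · have : (1 : ℝ) ≤ k := by exact_mod_cast h
      nlinarith [mul_nonneg (by positivity : 0 ≤ k * Real.pi) (by nlinarith : 0 ≤ k * Real.pi - d.im)]
  by_contra hc
  nlinarith [norm_pos_iff.mpr hc]

theorem re_pos {z : ℂ} (hz : z ∈ ball (0 : ℂ) 1) : 0 < (1 - z).re := by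
  have := (re_le_norm z).trans_lt (mem_ball_zero_iff.mp hz)
  simpa using this

theorem ne0 {z : ℂ} (hz : z ∈ ball (0 : ℂ) 1) : 1 - z ≠ 0 := fun e => by
  simpa [e] using re_pos hz

theorem log_mem {z : ℂ} (hz : z ∈ ball (0 : ℂ) 1) : log (1 - z) ∈ St := by
  rw [St, mem_setOf_eq, log_im]
  exact abs_arg_lt_pi_div_two_iff.mpr (Or.inl (re_pos hz))

theorem log_der {z : ℂ} (hz : z ∈ ball (0 : ℂ) 1) :
    HasDerivAt (fun z => log (1 - z)) (-1 / (1 - z)) z :=
  ((hasDerivAt_id z).const_sub 1).clog (Or.inl (re_pos hz))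

theorem log_inj : InjOn (fun z => log (1 - z)) (ball 0 1) := fun _ ha _ hb e =>
  sub_right_injective ((exp_log (ne0 ha)).symm.trans ((congrArg exp e).trans (exp_log (ne0 hb))))

noncomputable def ga : ℂ := 1 / 20 + I / 2

noncomputable def ww (s : ℂ) : ℂ := 1 / 20 / ga * exp (I / 2 * s)

theorem ga1 : 1 / 2 ≤ ‖ga‖ := le_trans (by norm_num [ga]) (im_le_norm ga)

theorem ga0 : ga ≠ 0 := norm_pos_iff.mp (by linarith [ga1])

theorem ww_le {s : ℂ} (hs : s ∈ St) : ‖ww s‖ ≤ 3 / 10 := by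
  have h1 : Real.exp (I / 2 * s).re ≤ 3 := by
    refine (Real.exp_le_exp.mpr ?_).trans (Real.exp_one_lt_d9.le.trans (by norm_num))
    have := (abs_lt.mp (show |s.im| < _ from hs)).1
    simp
    linarith [Real.pi_lt_four]
  have h2 : ‖1 / 20 / ga‖ ≤ 1 / 10 := by
    rw [norm_div, div_le_iff₀ (by linarith [ga1])]
    norm_num
    linarith [ga1]
  rw [ww, norm_mul, norm_exp]
  nlinarith [norm_nonneg (1 / 20 / ga), Real.exp_pos (I / 2 * s).re]

theorem ww_re {s : ℂ} (hs : s ∈ St) : 0 < (1 - ww s).re :=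
  re_pos (mem_ball_zero_iff.mpr (by linarith [ww_le hs]))

theorem inj2 : InjOn (fun s => exp ((1 + ga) * s - log (1 - ww s))) St := by
  refine inj (κ := 4 / 5) (by norm_num) (fun s hs => ((hasDerivAt_id s).const_mul _).sub
    (((((hasDerivAt_id s).const_mul _).cexp.const_mul _).const_sub 1).clog (Or.inl (ww_re hs))))
    fun s hs => ?_
  have h1 := ww_le hs
  have h2 : 7 / 10 ≤ ‖1 - ww s‖ := by linarith [norm_sub_norm_le 1 (ww s), norm_one (α := ℂ)]
  have h3 : ‖ga‖ ≤ 11 / 20 := (norm_add_le _ _).trans (by norm_num)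
  have h4 : ‖ww s * (I / 2) / (1 - ww s)‖ ≤ 1 / 4 := by
    rw [norm_div, norm_mul, div_le_iff₀ (by linarith)]
    norm_num
    linarith
  refine le_trans (le_of_eq (congrArg norm ?_)) ((norm_add_le _ _).trans
    ((add_le_add h3 h4).trans (by norm_num)))
  simp only [id, ww]
  ring

noncomputable def ff (z : ℂ) : ℂ :=
  (ga * exp (-ga * log (1 - z)) - 1 / 20 * exp (-(1 / 20) * log (1 - z))) / (1 - z)

noncomputable def FF (z : ℂ) : ℂ := exp (-ga * log (1 - z)) - exp (-(1 / 20) * log (1 - z))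

theorem FF_der {z : ℂ} (hz : z ∈ ball (0 : ℂ) 1) : HasDerivAt FF (ff z) z :=
  (((log_der hz).const_mul _).cexp.sub ((log_der hz).const_mul _).cexp).congr_deriv
    (by rw [ff]; ring)

theorem ff_inj : InjOn ff (ball 0 1) := fun a ha b hb e => by
  have h : ∀ z ∈ ball (0 : ℂ) 1, ff z =
      ga / exp ((1 + ga) * log (1 - z) - log (1 - ww (log (1 - z)))) := fun z hz => by
    have h1 := ne0 hz
    have h2 := ga0
    have h3 := ne0 (mem_ball_zero_iff.mpr ((ww_le (log_mem hz)).trans_lt (by norm_num)))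
    rw [ff, exp_sub, exp_log h3, add_mul, one_mul, exp_add, exp_log h1, ww,
      show -(1 / 20) * log (1 - z) = I / 2 * log (1 - z) + -ga * log (1 - z) by rw [ga]; ring,
      exp_add, neg_mul, exp_neg]
    field_simp
  rw [h a ha, h b hb, div_eq_div_iff (exp_ne_zero _) (exp_ne_zero _), mul_right_inj' ga0] at e
  exact log_inj ha hb (inj2 (log_mem ha) (log_mem hb) e.symm)

theorem pts (n : ℕ) : ∃ z ∈ ball (0 : ℂ) 1, FF z = 0 ∧ n / 10 ≤ (1 - ‖z‖ ^ 2) * ‖ff z‖ := by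
  obtain ⟨x, hx⟩ : ∃ x : ℝ, x = Real.exp (-(n * (4 * Real.pi))) := ⟨_, rfl⟩
  have x0 : 0 < x := hx ▸ Real.exp_pos _
  have x1 : x ≤ 1 := hx ▸ Real.exp_le_one_iff.mpr (neg_nonpos.mpr (by positivity))
  have e1 : log (1 - (1 - x : ℝ)) = (-(n * (4 * Real.pi)) : ℝ) := by
    rw [← ofReal_one, ← ofReal_sub, sub_sub_cancel, ← ofReal_log x0.le, hx, Real.log_exp]
  have e2 : exp (-ga * log (1 - (1 - x : ℝ))) = exp (-(1 / 20) * log (1 - (1 - x : ℝ))) := by
    refine exp_eq_exp_iff_exists_int.mpr ⟨n, ?_⟩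
    rw [e1, ga]
    push_cast
    ring
  have e3 : ‖((1 - x : ℝ) : ℂ)‖ = 1 - x := by rw [norm_real, Real.norm_of_nonneg (by linarith)]
  refine ⟨(1 - x : ℝ), mem_ball_zero_iff.mpr (by linarith), sub_eq_zero.mpr e2, ?_⟩
  rw [ff, e2, ← sub_mul, e1, norm_div, norm_mul, norm_exp, e3, ← ofReal_one, ← ofReal_sub,
    sub_sub_cancel, norm_real, Real.norm_of_nonneg x0.le, ← mul_div_assoc, le_div_iff₀ x0]
  have e4 := Real.add_one_le_exp (n * (4 * Real.pi) / 20)
  have e5 : (n : ℝ) / 5 ≤ Real.exp (n * (4 * Real.pi) / 20) := by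
    nlinarith [Real.pi_gt_three, n.cast_nonneg (α := ℝ)]
  simp [ga, div_eq_inv_mul] at e5 ⊢
  nlinarith [mul_le_mul_of_nonneg_left e5 x0.le, mul_nonneg (mul_nonneg x0.le (sub_nonneg.mpr x1))
    (Real.exp_pos (20⁻¹ * (n * (4 * Real.pi)))).le]

end Pool.Agent.H.MP_32357e_an
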